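import Pool.Agent.Helper798.FSeq.Counts

set_option autoImplicit false

/-! Lower bounds for the number of codes of length `r + s`. -/

namespace Pool.Agent.Y28.FS

open Finset Pool.Agent.Helper798.FSeq

universe u

section big

variable {r s : ℕ}

/-- Sum of standard basis vectors. -/
def vv (S : Finset (Fin r)) : Fin r → ZMod 2 := ∑ i ∈ S, Pi.single i 1

theorem vv_apply (S : Finset (Fin r)) (k : Fin r) : vv S k = if k ∈ S then 1 else 0 := by
  rw [vv, Finset.sum_apply]
  simp only [Pi.single_apply]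
  rw [Finset.sum_ite_eq]

theorem vv_inj : Function.Injective (vv (r := r)) := by
  intro S T h
  ext k
  have h1 := congrFun h k
  rw [vv_apply, vv_apply] at h1
  by_cases hS : k ∈ S
  · by_cases hT : k ∈ T
    · exact ⟨fun _ => hT, fun _ => hS⟩
    · rw [if_pos hS, if_neg hT] at h1
      exact absurd h1 (by decide)
  · by_cases hT : k ∈ T
    · rw [if_neg hS, if_pos hT] at h1
      exact absurd h1 (by decide)
    · exact ⟨fun h => absurd h hS, fun h => absurd h hT⟩

theorem Vr_add (y : Fin r → ZMod 2) : y + y = 0 := by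
  funext i
  exact CharTwo.add_self_eq_zero (y i)

/-- Odd subsets which are not singletons. -/
def oddr (r : ℕ) : Finset (Finset (Fin r)) := univ.filter (fun S => ¬ Even S.card ∧ S.card ≠ 1)

def tup (s : ℕ) (a : Fin s ↪ oddr r) : Fin (r + s) ↪ (Fin r → ZMod 2) where
  toFun := Fin.append (fun i => vv {i}) (fun j => vv (a j).1)
  inj' := by
    have hs : ∀ j, (a j).1.card ≠ 1 := by
      intro j
      exact (Finset.mem_filter.1 (a j).2).2.2
    rw [Fin.append_injective_iff]
    refine ⟨?_, ?_, ?_⟩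
    · intro i j hij
      have := vv_inj hij
      exact Finset.singleton_injective this
    · intro i j hij
      have := vv_inj hij
      exact a.injective (Subtype.ext this)
    · intro i j hij
      have := vv_inj hij
      apply hs j
      rw [← this, Finset.card_singleton]

def ss (s : ℕ) (S : Finset (Fin r)) (j : Fin s) : Finset (Fin (r + s)) :=
  insert (Fin.natAdd r j) (S.map (Fin.castAddEmb s))

theorem ss_notMem (S : Finset (Fin r)) (j : Fin s) :
    Fin.natAdd r j ∉ S.map (Fin.castAddEmb s) := by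
  intro h
  rw [Finset.mem_map] at h
  obtain ⟨i, _, hi⟩ := h
  have h1 : i.val = r + j.val := congrArg Fin.val hi
  have := i.2
  omega

theorem ss_mem (a : Fin s ↪ oddr r) (S : Finset (Fin r)) (hS : ¬ Even S.card) (j : Fin s) :
    ss s S j ∈ code (tup s a) ↔ (a j).1 = S := by
  rw [mem_code, ss, Finset.card_insert_of_notMem (ss_notMem S j), Finset.card_map,
    Finset.sum_insert (ss_notMem S j), Finset.sum_map]
  have h1 : tup s a (Fin.natAdd r j) = vv (a j).1 := by
    show Fin.append (fun i => vv {i}) (fun j => vv (a j).1) (Fin.natAdd r j) = _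
    rw [Fin.append_right]
  have h2 : ∀ i, tup s a (Fin.castAddEmb s i) = Pi.single i 1 := by
    intro i
    show Fin.append (fun i => vv {i}) (fun j => vv (a j).1) (Fin.castAdd s i) = _
    rw [Fin.append_left, vv, Finset.sum_singleton]
  rw [h1, Finset.sum_congr rfl (fun i _ => h2 i)]
  change Even (S.card + 1) ∧ vv (a j).1 + vv S = 0 ↔ _
  rw [add_eq_zero_iff' Vr_add]
  constructor
  · intro h; exact vv_inj h.2
  · intro h; exact ⟨Nat.even_add_one.2 hS, by rw [h]⟩

theorem CS_lower (r s : ℕ) (X : Type u) [AddCommGroup X] (hX : ∀ x : X, x + x = 0) [Infinite X] :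
    (oddr r).card.descFactorial s ≤ (CS X (r + s)).ncard := by
  have h1 : (Set.range (fun a : Fin s ↪ oddr r => code (tup s a))) ⊆ CS X (r + s) := by
    refine Set.Subset.trans ?_ (CS_sub (X := Fin r → ZMod 2) Vr_add hX (r + s))
    rintro c ⟨a, rfl⟩
    exact ⟨tup s a, rfl⟩
  have h2 : Function.Injective (fun a : Fin s ↪ oddr r => code (tup s a)) := by
    intro a t hst
    apply DFunLike.ext
    intro j
    apply Subtype.ext
    have h3 : ¬ Even (a j).1.card := (Finset.mem_filter.1 (a j).2).2.1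
    have h4 := (ss_mem a _ h3 j).2 rfl
    have h5 : ss s (a j).1 j ∈ code (tup s t) := by
      have hst' : code (tup s a) = code (tup s t) := hst
      rw [← hst']; exact h4
    exact ((ss_mem t _ h3 j).1 h5).symm
  have h3 := Set.ncard_le_ncard h1 (Set.toFinite _)
  rwa [← Set.image_univ, Set.ncard_image_of_injective _ h2, Set.ncard_univ,
    Nat.card_eq_fintype_card, Fintype.card_embedding_eq, Fintype.card_fin,
    Fintype.card_coe] at h3

theorem card_oddr (n : ℕ) : 2 ^ n ≤ (oddr (n + 1)).card + (n + 1) := by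
  classical
  have h1 : (univ : Finset (Finset (Fin n))).card ≤
      (oddr (n + 1) ∪ univ.image (fun i : Fin (n + 1) => ({i} : Finset (Fin (n + 1))))).card := by
    apply Finset.card_le_card_of_injOn (fun S => ext S (decide (Even S.card)))
    · intro S _
      have hc : (ext S (decide (Even S.card))).card = S.card + (if Even S.card then 1 else 0) := by
        rw [card_pb, pb_ext]
        congr 1
        simp only [last_mem_ext, decide_eq_true_eq]
      have ho : ¬ Even (ext S (decide (Even S.card))).card := by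
        rw [hc]
        by_cases he : Even S.card
        · rw [if_pos he, Nat.even_add_one]
          exact fun h => h he
        · rw [if_neg he]
          exact he
      rw [Finset.mem_coe, Finset.mem_union]
      by_cases h1 : (ext S (decide (Even S.card))).card = 1
      · right
        obtain ⟨i, hi⟩ := Finset.card_eq_one.1 h1
        rw [Finset.mem_image]
        exact ⟨i, Finset.mem_univ _, hi.symm⟩
      · left
        rw [oddr, Finset.mem_filter]
        exact ⟨Finset.mem_univ _, ho, h1⟩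
    · intro S _ T _ hST
      have := congrArg pb hST
      simpa only [pb_ext] using this
  rw [Finset.card_univ, Fintype.card_finset, Fintype.card_fin] at h1
  refine h1.trans ((Finset.card_union_le _ _).trans ?_)
  apply Nat.add_le_add_left
  refine Finset.card_image_le.trans ?_
  rw [Finset.card_univ, Fintype.card_fin]

theorem pow_le_desc (q s : ℕ) (hq : 0 < q) : q ^ s ≤ (q + s - 1).descFactorial s := by
  have := Nat.pow_sub_le_descFactorial (q + s - 1) s
  have h : q + s - 1 + 1 - s = q := by omega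
  rwa [h] at this

/-- Codes of length `n + 1 + s`. -/
theorem CS_pow (n s : ℕ) (X : Type u) [AddCommGroup X] (hX : ∀ x : X, x + x = 0) [Infinite X] :
    (2 ^ n - (n + s)) ^ s ≤ (CS X (n + 1 + s)).ncard := by
  refine le_trans ?_ (CS_lower (n + 1) s X hX)
  have h1 := card_oddr n
  rcases Nat.eq_zero_or_pos s with rfl | hs
  · simp
  have h2 := Nat.pow_sub_le_descFactorial (oddr (n + 1)).card s
  refine le_trans ?_ h2
  apply Nat.pow_le_pow_left
  omega

end big

section arith

theorem bern (a b c s : ℕ) (h : a = c + b) : a ^ s * a ≤ a * c ^ s + s * b * a ^ s := by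
  induction s with
  | zero => simp
  | succ s ih =>
    have h1 : c ^ s ≤ a ^ s := Nat.pow_le_pow_left (by omega) s
    have h2 : a * (a ^ s * a) ≤ a * (a * c ^ s + s * b * a ^ s) := Nat.mul_le_mul_left a ih
    have h3 : a * b * c ^ s ≤ a * b * a ^ s := Nat.mul_le_mul_left _ h1
    calc a ^ (s + 1) * a = a * (a ^ s * a) := by ring
      _ ≤ a * (a * c ^ s + s * b * a ^ s) := h2
      _ = a * ((c + b) * c ^ s) + s * b * a ^ (s + 1) := by rw [← h]; ring
      _ = a * c ^ (s + 1) + a * b * c ^ s + s * b * a ^ (s + 1) := by ring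
      _ ≤ a * c ^ (s + 1) + a * b * a ^ s + s * b * a ^ (s + 1) := by omega
      _ = a * c ^ (s + 1) + (s + 1) * b * a ^ (s + 1) := by ring

theorem half (a b c s : ℕ) (h : a = c + b) (ha : 0 < a) (hs : 2 * (s * b) ≤ a) :
    a ^ s ≤ 2 * c ^ s := by
  have h1 := bern a b c s h
  have h2 : 2 * (s * b) * a ^ s ≤ a * a ^ s := Nat.mul_le_mul_right _ hs
  have h3 : a * a ^ s ≤ a * (2 * c ^ s) := by nlinarith
  exact Nat.le_of_mul_le_mul_left h3 ha

theorem sq_le (n : ℕ) (hn : 8 ≤ n) : 4 * n ^ 2 ≤ 2 ^ n := by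
  induction n, hn using Nat.le_induction with
  | base => norm_num
  | succ n hn ih =>
    have h1 : 4 * (n + 1) ^ 2 ≤ 2 * (4 * n ^ 2) := by nlinarith
    calc 4 * (n + 1) ^ 2 ≤ 2 * (4 * n ^ 2) := h1
      _ ≤ 2 * 2 ^ n := Nat.mul_le_mul_left 2 ih
      _ = 2 ^ (n + 1) := by ring

theorem pow_bound (n s : ℕ) (h1 : s ≤ n) (h2 : n ≤ s + 1) (h3 : 15 ≤ n + s) :
    2 ^ (n * s) ≤ 2 * (2 ^ n - (n + s)) ^ s := by
  have h5 : 4 * n ^ 2 ≤ 2 ^ n := sq_le n (by omega)
  rw [pow_mul]
  have h7 : n + s ≤ 2 ^ n := by nlinarith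
  apply half (2 ^ n) (n + s) _ s (by omega) (by positivity)
  refine le_trans ?_ h5
  nlinarith

/-- A lower bound for the number of codes. -/
theorem CS_bound (k : ℕ) (hk : 10 ≤ k) (X : Type u) [AddCommGroup X] (hX : ∀ x : X, x + x = 0)
    [Infinite X] : (2 ^ (k + 1) + 1) * 2 ^ (k ^ 2 / 4 - k - 3) + 1 < (CS X (k + 1)).ncard := by
  by_cases hk2 : 15 ≤ k
  · obtain ⟨n, s, h1, h2, h3, h4⟩ :
        ∃ n s : ℕ, s ≤ n ∧ n ≤ s + 1 ∧ n + s = k ∧ k ^ 2 / 4 = n * s := by
      obtain ⟨m, hm⟩ := Nat.even_or_odd' k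
      rcases hm with hm | hm
      · refine ⟨m, m, le_rfl, by omega, by omega, ?_⟩
        rw [hm]
        have : (2 * m) ^ 2 = m * m * 4 := by ring
        rw [this]
        omega
      · refine ⟨m + 1, m, by omega, le_rfl, by omega, ?_⟩
        rw [hm]
        have : (2 * m + 1) ^ 2 = (m + 1) * m * 4 + 1 := by ring
        rw [this]
        omega
    have h5 := pow_bound n s h1 h2 (by omega)
    have h6 := CS_pow n s X hX
    have h7 : n + 1 + s = k + 1 := by omega
    rw [h7] at h6
    rw [h4]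
    have h8 : k + 4 ≤ n * s := by nlinarith
    obtain ⟨e, he⟩ : ∃ e, n * s = k + 3 + (e + 1) := ⟨n * s - k - 4, by omega⟩
    have h9 : n * s - k - 3 = e + 1 := by omega
    rw [h9]
    have h10 : 2 ^ (n * s) = 2 ^ (k + 1) * 2 ^ (e + 1) * 4 := by
      rw [he]; ring
    have h11 : 1 < 2 ^ (e + 1) := Nat.one_lt_two_pow (by omega)
    have h12 : 2 ≤ 2 ^ (k + 1) := by
      calc 2 = 2 ^ 1 := by norm_num
        _ ≤ 2 ^ (k + 1) := Nat.pow_le_pow_right (by norm_num) (by omega)
    have h13 : 2 * 2 ^ (e + 1) ≤ 2 ^ (k + 1) * 2 ^ (e + 1) := Nat.mul_le_mul_right _ h12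
    have h14 : (2 ^ (k + 1) + 1) * 2 ^ (e + 1) = 2 ^ (k + 1) * 2 ^ (e + 1) + 2 ^ (e + 1) := by ring
    omega
  · have h6 : k = 10 ∨ k = 11 ∨ k = 12 ∨ k = 13 ∨ k = 14 := by omega
    rcases h6 with rfl | rfl | rfl | rfl | rfl
    · refine lt_of_lt_of_le ?_ (CS_pow 6 4 X hX); norm_num
    · refine lt_of_lt_of_le ?_ (CS_pow 6 5 X hX); norm_num
    · refine lt_of_lt_of_le ?_ (CS_pow 6 6 X hX); norm_num
    · refine lt_of_lt_of_le ?_ (CS_pow 7 6 X hX); norm_num
    · refine lt_of_lt_of_le ?_ (CS_pow 7 7 X hX); norm_num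

end arith

end Pool.Agent.Y28.FS
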