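import Pool.Agent.Helper798.FSeq.Final
import Pool.Agent.Y28.FS.Low

set_option autoImplicit false

/-! Orbits of a subgroup of the affine group of an elementary abelian `2`-group on `(k+2)`-tuples
when the orbits on `k`-tuples are those of the affine group. -/

namespace Pool.Agent.Y28.FS

open Finset Pool.Agent.Helper798.FSeq

universe u

section fin

variable {Ω : Type u} [AddCommGroup Ω] {G : Subgroup (Equiv.Perm Ω)}

theorem final_bound [Infinite Ω] (k : ℕ) (f : ℕ) (hf : 2 ≤ f) (hX : ∀ x : Ω, x + x = 0)
    (haff : ∀ g ∈ G, ∀ x y z : Ω, g (x + y + z) = g x + g y + g z)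
    (h11 : orbitCount G k = (CS Ω k).ncard)
    (h12 : orbitCount G (k + 1) = (CS Ω (k + 1)).ncard * f)
    (h13' : orbitCount G (k + 2) ≠ 0) :
    (f - 1) * (CS Ω (k + 1)).ncard * ((f - 1) * (CS Ω (k + 1)).ncard - 1) ≤
      orbitCount G (k + 2) := by
  classical
  have hpos11 : (CS Ω k).ncard ≠ 0 :=
    (Set.ncard_pos (Set.toFinite _)).2 (CS_nonempty (X := Ω) k) |>.ne'
  have hpos12 : 0 < (CS Ω (k + 1)).ncard :=
    (Set.ncard_pos (Set.toFinite _)).2 (CS_nonempty (X := Ω) (k + 1))
  have sep11 : ∀ x y : Fin k ↪ Ω, code x = code y → ∃ g ∈ G, ∀ i, g (x i) = y i := by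
    intro x y hxy
    exact separates (G := G) (fun x : Fin k ↪ Ω => code x) (code_inv hX haff)
      (by rw [h11]; exact hpos11) (by rw [h11]; exact le_rfl) x y hxy
  have dep12 := dep_orbit (G := G) hX haff sep11
  have hne12 : orbitCount G (k + 1) ≠ 0 := by
    rw [h12]
    exact Nat.mul_ne_zero hpos12.ne' (by omega)
  have fin12 : Finite (Quotient (tupleSetoid G (k + 1))) := finite_of_ne_zero hne12
  have fin13 : Finite (Quotient (tupleSetoid G (k + 2))) := finite_of_ne_zero h13'
  let c : Quotient (tupleSetoid G (k + 1)) → Finset (Finset (Fin (k + 1))) :=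
    Quotient.lift (fun x : Fin (k + 1) ↪ Ω => code x) (code_inv hX haff)
  -- classes of independent tuples
  let I : Type u := {q : Quotient (tupleSetoid G (k + 1)) // c q = {∅}}
  have : Finite I := Subtype.finite
  letI : Fintype I := Fintype.ofFinite I
  have ht : (f - 1) * (CS Ω (k + 1)).ncard ≤ Fintype.card I := by
    have h1 : ({q | c q ≠ {∅}} : Set (Quotient (tupleSetoid G (k + 1)))).ncard ≤ (CS Ω (k + 1)).ncard := by
      apply Set.ncard_le_ncard_of_injOn c
      · intro q _
        induction q using Quotient.inductionOn with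
        | h x => exact ⟨x, rfl⟩
      · intro q hq r hr hqr
        revert hq hr hqr
        induction q using Quotient.inductionOn with
        | h x =>
          induction r using Quotient.inductionOn with
          | h y =>
            intro hq _ hqr
            exact Quotient.sound (dep12 x y hqr hq)
    have h2 := Set.ncard_add_ncard_compl ({q | c q ≠ {∅}} : Set (Quotient (tupleSetoid G (k + 1))))
    have h3 : ({q | c q ≠ {∅}} : Set (Quotient (tupleSetoid G (k + 1))))ᶜ = {q | c q = {∅}} := by
      ext q
      simp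
    have h4 : ({q | c q = {∅}} : Set (Quotient (tupleSetoid G (k + 1)))).ncard = Fintype.card I := by
      rw [← Nat.card_eq_fintype_card]
      rfl
    have h5 : Nat.card (Quotient (tupleSetoid G (k + 1))) = (CS Ω (k + 1)).ncard * f := h12
    rw [h3, h4, h5] at h2
    have h6 : (CS Ω (k + 1)).ncard * f =
        (f - 1) * (CS Ω (k + 1)).ncard + (CS Ω (k + 1)).ncard := by
      obtain ⟨m, rfl⟩ : ∃ m, f = m + 1 := ⟨f - 1, by omega⟩
      rw [Nat.add_sub_cancel]
      ring
    omega
  -- the fixed independent tuple
  have hI : Nonempty I := by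
    rw [← Fintype.card_pos_iff]
    have h6 : 0 < (f - 1) * (CS Ω (k + 1)).ncard := Nat.mul_pos (by omega) hpos12
    omega
  obtain ⟨⟨q0, hq0⟩⟩ := hI
  have hcs : ∀ z : Fin (k + 1) ↪ Ω, code z = {∅} → code (fun i : Fin k => z i.castSucc) = {∅} := by
    intro z hz
    ext S
    have h1 := code_comp (z : Fin (k + 1) → Ω) Fin.castSuccEmb S
    rw [hz, Finset.mem_singleton, Finset.map_eq_empty] at h1
    rw [Finset.mem_singleton]
    exact h1
  obtain ⟨z0, hz0⟩ := Quotient.exists_rep q0
  have hz0c : code z0 = {∅} := by
    rw [← hz0] at hq0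
    exact hq0
  let xb : Fin k ↪ Ω := Fin.castSuccEmb.trans z0
  have hxb : code xb = {∅} := hcs z0 hz0c
  -- representatives over the fixed tuple
  have hrep : ∀ q : I, ∃ y : Ω, ∃ h : ∀ i, xb i ≠ y,
      Quotient.mk (tupleSetoid G (k + 1)) (sn xb y h) = q.1 := by
    rintro ⟨q, hq⟩
    obtain ⟨z, hz⟩ := Quotient.exists_rep q
    have hzc : code z = {∅} := by
      rw [← hz] at hq
      exact hq
    have h1 : code (Fin.castSuccEmb.trans z) = code xb := by
      rw [hxb]; exact hcs z hzc
    obtain ⟨g, hg, hgx⟩ := sep11 _ _ h1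
    have hgx' : ∀ i : Fin k, g (z i.castSucc) = xb i := hgx
    refine ⟨g (z (Fin.last k)), ?_, ?_⟩
    · intro i heq
      rw [← hgx' i] at heq
      have := z.injective (g.injective heq)
      exact (Fin.castSucc_ne_last i) this
    · show Quotient.mk (tupleSetoid G (k + 1)) _ = q
      refine Eq.trans ?_ hz
      apply Quotient.sound
      refine ⟨g⁻¹, G.inv_mem hg, ?_⟩
      intro i
      have h1 : ∀ w, g⁻¹ (g w) = w := fun w => g.symm_apply_apply w
      refine Fin.lastCases ?_ (fun j => ?_) i
      · rw [sn_last, h1]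
      · rw [sn_castSucc, ← hgx' j, h1]
  choose y hy hyq using hrep
  have hyinj : Function.Injective y := by
    intro q r hqr
    apply Subtype.ext
    rw [← hyq q, ← hyq r]
    congr 1
    apply DFunLike.ext
    intro i
    refine Fin.lastCases ?_ (fun j => ?_) i
    · rw [sn_last, sn_last, hqr]
    · rw [sn_castSucc, sn_castSucc]
  have hne13 : ∀ (q r : I), q ≠ r → ∀ i, sn xb (y q) (hy q) i ≠ y r := by
    intro q r hqr i
    refine Fin.lastCases ?_ (fun j => ?_) i
    · rw [sn_last]
      intro h
      exact hqr (hyinj h)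
    · rw [sn_castSucc]
      exact hy r j
  let Φ : I × I → Quotient (tupleSetoid G (k + 2)) := fun p =>
    if h : p.1 ≠ p.2 then
      Quotient.mk (tupleSetoid G (k + 2)) (sn (sn xb (y p.1) (hy p.1)) (y p.2) (hne13 p.1 p.2 h))
    else Quotient.mk (tupleSetoid G (k + 2))
      (sn (sn xb (y p.1) (hy p.1)) (Classical.choose (Infinite.exists_notMem_finset
        (univ.image (sn xb (y p.1) (hy p.1))))) (fun i hi =>
          (Classical.choose_spec (Infinite.exists_notMem_finset
            (univ.image (sn xb (y p.1) (hy p.1))))) (hi ▸ Finset.mem_image_of_mem _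
              (Finset.mem_univ i))))
  letI : Fintype (Quotient (tupleSetoid G (k + 2))) := Fintype.ofFinite _
  have hcard : (univ : Finset I).offDiag.card ≤
      (univ : Finset (Quotient (tupleSetoid G (k + 2)))).card := by
    apply Finset.card_le_card_of_injOn Φ
    · intro p _; exact Finset.mem_coe.2 (Finset.mem_univ _)
    · rintro ⟨q, r⟩ hp ⟨q', r'⟩ hp' heq
      rw [Finset.mem_coe, Finset.mem_offDiag] at hp hp'
      have h1 : q ≠ r := hp.2.2
      have h2 : q' ≠ r' := hp'.2.2
      have e1 : Φ (q, r) = Quotient.mk (tupleSetoid G (k + 2))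
          (sn (sn xb (y q) (hy q)) (y r) (hne13 q r h1)) := by
        simp only [Φ]
        rw [dif_pos h1]
      have e2 : Φ (q', r') = Quotient.mk (tupleSetoid G (k + 2))
          (sn (sn xb (y q') (hy q')) (y r') (hne13 q' r' h2)) := by
        simp only [Φ]
        rw [dif_pos h2]
      rw [e1, e2] at heq
      obtain ⟨g, hg, hgx⟩ : ∃ g ∈ G, ∀ i, g (sn (sn xb (y q) (hy q)) (y r) (hne13 q r h1) i) =
        sn (sn xb (y q') (hy q')) (y r') (hne13 q' r' h2) i := Quotient.exact heq
      have g1 : ∀ j, g (xb j) = xb j := by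
        intro j
        have := hgx j.castSucc.castSucc
        rw [sn_castSucc, sn_castSucc, sn_castSucc, sn_castSucc] at this
        exact this
      have g2 : g (y q) = y q' := by
        have := hgx (Fin.last k).castSucc
        rw [sn_castSucc, sn_castSucc, sn_last, sn_last] at this
        exact this
      have g3 : g (y r) = y r' := by
        have := hgx (Fin.last (k + 1))
        rw [sn_last, sn_last] at this
        exact this
      have key : ∀ s s' : I, g (y s) = y s' → s = s' := by
        intro s s' hs
        apply Subtype.ext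
        rw [← hyq s, ← hyq s']
        apply Quotient.sound
        refine ⟨g, hg, ?_⟩
        intro i
        refine Fin.lastCases ?_ (fun j => ?_) i
        · rw [sn_last, sn_last, hs]
        · rw [sn_castSucc, sn_castSucc, g1]
      rw [key q q' g2, key r r' g3]
  rw [Finset.offDiag_card, Finset.card_univ, Finset.card_univ] at hcard
  have h13c : Fintype.card (Quotient (tupleSetoid G (k + 2))) = orbitCount G (k + 2) := by
    rw [← Nat.card_eq_fintype_card]; rfl
  rw [h13c] at hcard
  set t := Fintype.card I with htdef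
  refine le_trans ?_ hcard
  have h14 : t * t - t = t * (t - 1) := by rw [Nat.mul_sub, mul_one]
  rw [h14]
  exact Nat.mul_le_mul ht (by omega)

end fin

end Pool.Agent.Y28.FS
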