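import Pool.Agent.Helper798.FSeq.Hyper

set_option autoImplicit false

/-! Automorphism groups of random coloured `(k+1)`-uniform hypergraphs (the case `k = 11` with
two colours is the starting library `Helper798.FSeq.Hyper`). -/

namespace Pool.Agent.Y28.FS

open Finset Pool.Agent.Helper798.FSeq

universe u

variable {C : Type} [Zero C] [Finite C]

/-- The extension property of a colouring of finite sets. -/
def CExt (E : Finset ℕ → C) : Prop :=
  ∀ (A : Finset ℕ) (D : Finset ℕ → C), ∃ b, b ∉ A ∧ ∀ T ⊆ A, E (insert b T) = D T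

theorem exists_cExt : ∃ E : Finset ℕ → C, CExt E := by
  classical
  obtain ⟨f, hf⟩ := exists_surjective_nat (Finset ℕ →₀ C)
  refine ⟨fun T => if h : T.Nonempty then
    f (T.max' h).unpair.1 (T.erase (T.max' h)) else 0, ?_⟩
  intro A D
  obtain ⟨m, hm⟩ := hf (Finsupp.onFinset A.powerset
    (fun T => if T ∈ A.powerset then D T else 0) (by
      intro T hT
      by_contra hcon
      exact hT (if_neg hcon)))
  have h1 : ∀ a ∈ A, a < Nat.pair m (A.sup id + 1) := by
    intro a ha
    have h2 : a ≤ A.sup id := Finset.le_sup (f := id) ha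
    have h3 := Nat.right_le_pair m (A.sup id + 1)
    omega
  refine ⟨Nat.pair m (A.sup id + 1), fun h => absurd (h1 _ h) (lt_irrefl _), ?_⟩
  intro T hT
  have hnT : Nat.pair m (A.sup id + 1) ∉ T := fun h => absurd (h1 _ (hT h)) (lt_irrefl _)
  have hne : (insert (Nat.pair m (A.sup id + 1)) T).Nonempty := Finset.insert_nonempty _ _
  have hmax : (insert (Nat.pair m (A.sup id + 1)) T).max' hne = Nat.pair m (A.sup id + 1) := by
    apply le_antisymm
    · apply Finset.max'_le
      intro a ha
      rw [Finset.mem_insert] at ha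
      rcases ha with rfl | ha
      · exact le_rfl
      · exact (h1 _ (hT ha)).le
    · exact Finset.le_max' _ _ (Finset.mem_insert_self _ _)
  simp only [dif_pos hne]
  rw [hmax, Nat.unpair_pair, hm, Finset.erase_insert hnT, Finsupp.onFinset_apply,
    if_pos (Finset.mem_powerset.2 hT)]

/-- The automorphism group of a coloured `(k+1)`-uniform hypergraph. -/
def hypGroup (k : ℕ) (E : Finset ℕ → C) : Subgroup (Equiv.Perm ℕ) where
  carrier := {g | ∀ T : Finset ℕ, T.card = k + 1 → E (T.map g.toEmbedding) = E T}
  mul_mem' := by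
    intro g h hg hh T hT
    have h1 : T.map (g * h).toEmbedding = (T.map h.toEmbedding).map g.toEmbedding := by
      rw [Finset.map_map]; rfl
    rw [h1, hg _ (by rw [Finset.card_map]; exact hT), hh _ hT]
  one_mem' := by
    intro T _
    have h1 : T.map (1 : Equiv.Perm ℕ).toEmbedding = T := by
      ext a
      rw [Finset.mem_map]
      constructor
      · rintro ⟨b, hb, rfl⟩; exact hb
      · intro ha; exact ⟨a, ha, rfl⟩
    rw [h1]
  inv_mem' := by
    intro g hg T hT
    have h1 : (T.map (g⁻¹).toEmbedding).map g.toEmbedding = T := by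
      ext a
      rw [Finset.mem_map]
      constructor
      · rintro ⟨b, hb, rfl⟩
        rw [Finset.mem_map] at hb
        obtain ⟨c, hc, rfl⟩ := hb
        have : g (g⁻¹ c) = c := g.apply_symm_apply c
        show g (g⁻¹ c) ∈ T
        rw [this]; exact hc
      · intro ha
        refine ⟨g⁻¹ a, Finset.mem_map.2 ⟨a, ha, rfl⟩, ?_⟩
        exact g.apply_symm_apply a
    rw [← hg _ (by rw [Finset.card_map]; exact hT), h1]

/-- Finite pieces of automorphisms. -/
def HP (k : ℕ) (E : Finset ℕ → C) (s : Finset (ℕ × ℕ)) : Prop :=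
  (∀ p ∈ s, ∀ q ∈ s, (p.1 = q.1 ↔ p.2 = q.2)) ∧
    ∀ F ⊆ s, F.card = k + 1 → E (F.image Prod.fst) = E (F.image Prod.snd)

omit [Zero C] [Finite C] in
theorem HP.swap {k : ℕ} {E : Finset ℕ → C} {s : Finset (ℕ × ℕ)} (h : HP k E s) :
    HP k E (s.image Prod.swap) := by
  refine ⟨?_, ?_⟩
  · intro p hp q hq
    rw [Finset.mem_image] at hp hq
    obtain ⟨p, hp, rfl⟩ := hp
    obtain ⟨q, hq, rfl⟩ := hq
    exact (h.1 p hp q hq).symm
  · intro F hF hc
    have h1 : (F.image Prod.swap).card = k + 1 := by
      rw [Finset.card_image_of_injective _ Prod.swap_injective, hc]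
    have h2 : F.image Prod.swap ⊆ s := by
      intro p hp
      rw [Finset.mem_image] at hp
      obtain ⟨q, hq, rfl⟩ := hp
      have := hF hq
      rw [Finset.mem_image] at this
      obtain ⟨r, hr, rfl⟩ := this
      rw [Prod.swap_swap]; exact hr
    have h3 := h.2 _ h2 h1
    rw [Finset.image_image, Finset.image_image] at h3
    exact h3.symm

omit [Zero C] [Finite C] in
theorem HP.forth {k : ℕ} {E : Finset ℕ → C} (hE : CExt E) {s : Finset (ℕ × ℕ)} (h : HP k E s)
    (a : ℕ) : ∃ s', s ⊆ s' ∧ HP k E s' ∧ ∃ b, (a, b) ∈ s' := by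
  classical
  by_cases ha : ∃ b, (a, b) ∈ s
  · exact ⟨s, Finset.Subset.refl s, h, ha⟩
  · have ha' : ∀ p ∈ s, p.1 ≠ a := by
      intro p hp hpa
      exact ha ⟨p.2, by rw [← hpa]; exact hp⟩
    obtain ⟨b, hb1, hb2⟩ := hE (s.image Prod.snd)
      (fun U => E (insert a ((s.filter (fun p => p.2 ∈ U)).image Prod.fst)))
    have hb' : ∀ p ∈ s, p.2 ≠ b := by
      intro p hp hpb
      exact hb1 (hpb ▸ Finset.mem_image_of_mem Prod.snd hp)
    have hkey : ∀ T ⊆ s, E (insert b (T.image Prod.snd)) = E (insert a (T.image Prod.fst)) := by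
      intro T hT
      rw [hb2 _ (Finset.image_subset_image hT)]
      have h1 : s.filter (fun p => p.2 ∈ T.image Prod.snd) = T := by
        ext p
        rw [Finset.mem_filter, Finset.mem_image]
        constructor
        · rintro ⟨hp, q, hq, hqp⟩
          have h4 := (h.1 q (hT hq) p hp).2 hqp
          have h5 : q = p := Prod.ext h4 hqp
          rw [← h5]; exact hq
        · intro hp
          exact ⟨hT hp, p, hp, rfl⟩
      rw [h1]
    refine ⟨insert (a, b) s, Finset.subset_insert _ _, ⟨?_, ?_⟩, b, Finset.mem_insert_self _ _⟩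
    · intro p hp q hq
      rw [Finset.mem_insert] at hp hq
      rcases hp with rfl | hp
      · rcases hq with rfl | hq
        · exact ⟨fun _ => rfl, fun _ => rfl⟩
        · exact ⟨fun h => absurd h.symm (ha' q hq), fun h => absurd h.symm (hb' q hq)⟩
      · rcases hq with rfl | hq
        · exact ⟨fun h => absurd h (ha' p hp), fun h => absurd h (hb' p hp)⟩
        · exact h.1 p hp q hq
    · intro F hF hc
      by_cases hab : (a, b) ∈ F
      · have h1 : F = insert (a, b) (F.erase (a, b)) := (Finset.insert_erase hab).symm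
        have h2 : F.erase (a, b) ⊆ s := by
          intro p hp
          rw [Finset.mem_erase] at hp
          have := hF hp.2
          rw [Finset.mem_insert] at this
          exact this.resolve_left hp.1
        rw [h1, Finset.image_insert, Finset.image_insert]
        exact (hkey _ h2).symm
      · apply h.2 F _ hc
        intro p hp
        have := hF hp
        rw [Finset.mem_insert] at this
        rcases this with h1 | h1
        · exact absurd (h1 ▸ hp) hab
        · exact h1

omit [Zero C] [Finite C] in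
theorem HP.back {k : ℕ} {E : Finset ℕ → C} (hE : CExt E) {s : Finset (ℕ × ℕ)} (h : HP k E s)
    (b : ℕ) : ∃ s', s ⊆ s' ∧ HP k E s' ∧ ∃ a, (a, b) ∈ s' := by
  obtain ⟨s', h1, h2, a, h3⟩ := h.swap.forth hE b
  refine ⟨s'.image Prod.swap, ?_, h2.swap, a, ?_⟩
  · intro p hp
    rw [Finset.mem_image]
    exact ⟨p.swap, h1 (Finset.mem_image_of_mem Prod.swap hp), Prod.swap_swap p⟩
  · rw [Finset.mem_image]
    exact ⟨_, h3, rfl⟩

/-- The complete invariant. -/
noncomputable def hcode (k : ℕ) (E : Finset ℕ → C) {n : ℕ} (x : Fin n ↪ ℕ) :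
    Finset (Fin n) → C :=
  fun T => if T.card = k + 1 then E (T.map x) else 0

omit [Finite C] in
theorem hcode_iff {k : ℕ} {E : Finset ℕ → C} (hE : CExt E) {n : ℕ} (x y : Fin n ↪ ℕ) :
    (∃ g ∈ hypGroup k E, ∀ i, g (x i) = y i) ↔ hcode k E x = hcode k E y := by
  classical
  constructor
  · rintro ⟨g, hg, hgx⟩
    funext T
    rw [hcode, hcode]
    by_cases hT : T.card = k + 1
    · rw [if_pos hT, if_pos hT]
      have h1 : T.map y = (T.map x).map g.toEmbedding := by
        rw [Finset.map_map]
        congr 1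
        ext i
        exact (hgx i).symm
      rw [h1, hg _ (by rw [Finset.card_map]; exact hT)]
    · rw [if_neg hT, if_neg hT]
  · intro h
    obtain ⟨g, hg1, hg2⟩ := baf (X := ℕ) (HP k E) (fun s hs => hs.1) (fun s hs a => hs.forth hE a)
      (fun s hs b => hs.back hE b) (univ.image (fun i => (x i, y i))) (by
      have hinj : Function.Injective (fun i => (x i, y i)) := by
        intro i j hij
        exact x.injective (congrArg Prod.fst hij)
      refine ⟨?_, ?_⟩
      · intro p hp q hq
        rw [Finset.mem_image] at hp hq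
        obtain ⟨i, _, rfl⟩ := hp
        obtain ⟨j, _, rfl⟩ := hq
        show x i = x j ↔ y i = y j
        rw [x.injective.eq_iff, y.injective.eq_iff]
      · intro F hF hc
        obtain ⟨T, _, hT⟩ := Finset.subset_image_iff.1 hF
        have hTc : T.card = k + 1 := by
          rw [← hc, ← hT, Finset.card_image_of_injective _ hinj]
        have hx : F.image Prod.fst = T.map x := by
          rw [← hT, Finset.image_image, Finset.map_eq_image]; rfl
        have hy : F.image Prod.snd = T.map y := by
          rw [← hT, Finset.image_image, Finset.map_eq_image]; rfl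
        rw [hx, hy]
        have h1 := congrFun h T
        rw [hcode, hcode, if_pos hTc, if_pos hTc] at h1
        exact h1)
    refine ⟨g, ?_, ?_⟩
    · intro T hT
      obtain ⟨s, hs, hsT⟩ := hg2 T
      have h1 : T.image (fun a => (a, g a)) ⊆ s := by
        intro p hp
        rw [Finset.mem_image] at hp
        obtain ⟨a, ha, rfl⟩ := hp
        exact hsT a ha
      have h2 := hs.2 _ h1 (by
        rw [Finset.card_image_of_injective _ (fun a b hab => congrArg Prod.fst hab), hT])
      rw [Finset.image_image, Finset.image_image] at h2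
      have h3 : T.image (Prod.fst ∘ fun a => (a, g a)) = T := by
        have : (Prod.fst ∘ fun a => (a, g a)) = id := rfl
        rw [this, Finset.image_id]
      have h4 : T.image (Prod.snd ∘ fun a => (a, g a)) = T.map g.toEmbedding := by
        rw [Finset.map_eq_image]; rfl
      rw [h3, h4] at h2
      exact h2.symm
    · intro i
      exact hg1 (x i, y i) (Finset.mem_image.2 ⟨i, Finset.mem_univ _, rfl⟩)

theorem hyp_count {k : ℕ} {E : Finset ℕ → C} (hE : CExt E) (n : ℕ) :
    orbitCount (hypGroup k E) n = (Set.range (fun x : Fin n ↪ ℕ => hcode k E x)).ncard :=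
  orbitCount_eq _ (fun x y => hcode_iff hE x y)

omit [Finite C] in
theorem hyp_range_nonempty (k : ℕ) (E : Finset ℕ → C) (n : ℕ) :
    (Set.range (fun x : Fin n ↪ ℕ => hcode k E x)).Nonempty :=
  ⟨_, Fin.valEmbedding, rfl⟩

omit [Finite C] in
theorem hcode_small (k : ℕ) (E : Finset ℕ → C) {n : ℕ} (hn : n < k + 1) (x : Fin n ↪ ℕ) :
    hcode k E x = 0 := by
  funext T
  rw [hcode, if_neg]
  · rfl
  · have := Finset.card_le_univ T
    rw [Fintype.card_fin] at this
    omega

theorem hyp_small {k : ℕ} {E : Finset ℕ → C} (hE : CExt E) {n : ℕ} (hn : n < k + 1) :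
    orbitCount (hypGroup k E) n = 1 := by
  rw [hyp_count hE]
  have h2 : Set.range (fun x : Fin n ↪ ℕ => hcode k E x) = {0} := by
    apply Set.Subset.antisymm
    · rintro c ⟨x, rfl⟩; exact hcode_small k E hn x
    · rintro c hc
      rw [Set.mem_singleton_iff] at hc
      subst hc
      exact ⟨Fin.valEmbedding, hcode_small k E hn _⟩
  rw [h2, Set.ncard_singleton]

theorem hyp_pos {k : ℕ} {E : Finset ℕ → C} (hE : CExt E) (n : ℕ) :
    0 < orbitCount (hypGroup k E) n := by
  rw [hyp_count hE, Set.ncard_pos (Set.toFinite _)]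
  exact hyp_range_nonempty k E n

/-- `F_{k+2} ≤ |C|^{k+2}`. -/
theorem hyp_two {k : ℕ} {E : Finset ℕ → C} (hE : CExt E) :
    orbitCount (hypGroup k E) (k + 2) ≤ Nat.card C ^ (k + 2) := by
  classical
  rw [hyp_count hE]
  let _ : Fintype C := Fintype.ofFinite C
  have h1 : (Set.range (fun x : Fin (k + 2) ↪ ℕ => hcode k E x)).ncard ≤
      (Set.univ : Set (Fin (k + 2) → C)).ncard := by
    apply Set.ncard_le_ncard_of_injOn (fun c i => c (univ.erase i)) (fun _ _ => Set.mem_univ _)
    rintro c ⟨x, rfl⟩ d ⟨y, rfl⟩ hcd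
    show hcode k E x = hcode k E y
    funext T
    by_cases hT : T.card = k + 1
    · have h2 : ∃ i, T = univ.erase i := by
        have h3 : (univ \ T).card = 1 := by
          rw [Finset.card_sdiff_of_subset (Finset.subset_univ T), Finset.card_univ,
            Fintype.card_fin, hT]
          omega
        obtain ⟨i, hi⟩ := Finset.card_eq_one.1 h3
        refine ⟨i, ?_⟩
        rw [Finset.erase_eq, ← hi, Finset.sdiff_sdiff_eq_self (Finset.subset_univ T)]
      obtain ⟨i, hi⟩ := h2
      rw [hi]
      exact congrFun hcd i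
    · rw [hcode, hcode, if_neg hT, if_neg hT]
  refine h1.trans ?_
  rw [Set.ncard_univ, Nat.card_eq_fintype_card, Fintype.card_fun, Fintype.card_fin,
    Nat.card_eq_fintype_card]

/-- `F_{k+1} = |C|`. -/
theorem hyp_one {k : ℕ} {E : Finset ℕ → C} (hE : CExt E) :
    orbitCount (hypGroup k E) (k + 1) = Nat.card C := by
  classical
  rw [hyp_count hE]
  have hex : ∀ c : C, ∃ x : Fin (k + 1) ↪ ℕ, E (univ.map x) = c := by
    intro c
    obtain ⟨b, hb1, hb2⟩ := hE (Finset.range k) (fun _ => c)
    let x : Fin (k + 1) → ℕ := Fin.cons b (fun i : Fin k => (i : ℕ))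
    have hx : Function.Injective x := by
      rw [Fin.cons_injective_iff]
      refine ⟨?_, Fin.val_injective⟩
      rintro ⟨i, hi⟩
      apply hb1
      rw [Finset.mem_range, ← hi]
      exact i.2
    refine ⟨⟨x, hx⟩, ?_⟩
    have h3 : univ.map ⟨x, hx⟩ = insert b (Finset.range k) := by
      ext a
      rw [Finset.mem_map, Finset.mem_insert, Finset.mem_range]
      constructor
      · rintro ⟨i, _, hi⟩
        revert hi
        refine Fin.cases ?_ (fun j => ?_) i
        · intro h; left; exact h.symm
        · intro h; right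
          have h4 : (j : ℕ) = a := h
          rw [← h4]; exact j.2
      · rintro (rfl | ha)
        · exact ⟨0, Finset.mem_univ _, rfl⟩
        · exact ⟨Fin.succ ⟨a, ha⟩, Finset.mem_univ _, rfl⟩
    rw [h3]
    exact hb2 _ (Finset.Subset.refl _)
  have h1 : Set.range (fun x : Fin (k + 1) ↪ ℕ => hcode k E x) =
      (fun c : C => (fun T : Finset (Fin (k + 1)) => if T.card = k + 1 then c else 0)) ''
        Set.univ := by
    apply Set.Subset.antisymm
    · rintro _ ⟨x, rfl⟩
      refine ⟨E (univ.map x), Set.mem_univ _, ?_⟩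
      funext T
      show (if T.card = k + 1 then E (univ.map x) else 0) =
        (if T.card = k + 1 then E (T.map x) else 0)
      by_cases hT : T.card = k + 1
      · rw [if_pos hT, if_pos hT]
        have : T = univ := by
          rw [← Finset.card_eq_iff_eq_univ, Fintype.card_fin]
          exact hT
        rw [this]
      · rw [if_neg hT, if_neg hT]
    · rintro _ ⟨c, _, rfl⟩
      obtain ⟨x, hx⟩ := hex c
      refine ⟨x, ?_⟩
      funext T
      show (if T.card = k + 1 then E (T.map x) else 0) = (if T.card = k + 1 then c else 0)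
      by_cases hT : T.card = k + 1
      · rw [if_pos hT, if_pos hT]
        have : T = univ := by
          rw [← Finset.card_eq_iff_eq_univ, Fintype.card_fin]
          exact hT
        rw [this, hx]
      · rw [if_neg hT, if_neg hT]
  have h2 : Function.Injective
      (fun c : C => (fun T : Finset (Fin (k + 1)) => if T.card = k + 1 then c else 0)) := by
    intro c d hcd
    have h3 := congrFun hcd univ
    simpa using h3
  rw [h1, Set.ncard_image_of_injective _ h2, Set.ncard_univ]

theorem hyp_oligo {k : ℕ} {E : Finset ℕ → C} (hE : CExt E) : Oligomorphic (hypGroup k E) := by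
  apply oligo_of_inj
  intro n
  exact finite_of_ne_zero (hyp_pos hE n).ne'

omit [Finite C] in
theorem hyp_prim {k : ℕ} (hk : 2 ≤ k) {E : Finset ℕ → C} (hE : CExt E) :
    Primitive (hypGroup k E) := by
  have h1 : ∀ n, n < k + 1 → ∀ x y : Fin n ↪ ℕ, ∃ g ∈ hypGroup k E, ∀ i, g (x i) = y i := by
    intro n hn x y
    rw [hcode_iff hE, hcode_small k E hn, hcode_small k E hn]
  apply primitive_of_two
  · intro x y
    obtain ⟨g, hg, h⟩ := h1 1 (by omega) ⟨fun _ => x, fun _ _ _ => Subsingleton.elim _ _⟩
      ⟨fun _ => y, fun _ _ _ => Subsingleton.elim _ _⟩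
    exact ⟨g, hg, h 0⟩
  · intro x y x' y' hxy hxy'
    obtain ⟨g, hg, h⟩ := h1 2 (by omega) ⟨![x, y], by
      intro i j hij
      fin_cases i <;> fin_cases j <;> simp_all [eq_comm]⟩ ⟨![x', y'], by
      intro i j hij
      fin_cases i <;> fin_cases j <;> simp_all [eq_comm]⟩
    exact ⟨g, hg, h 0, h 1⟩

end Pool.Agent.Y28.FS
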